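import Mathlib

/-!
# Jets of very well-covered uniform clutters

For every `d ≥ 3` there is a very well-covered `d`-uniform clutter whose clutter of
`(d-2)`-jets is not very well-covered.  The vertices are `x_i, y_i` (`i < d`), and the edges
are `{x_0, …, x_{d-1}}` and the sets obtained from it by replacing one `x_i` by `y_i`.
-/

namespace Pool.Agent.Results.MP_4ee39a_co.JetsFail

/-- A family `E` of subsets of `X` is a clutter if none of its members contains another. -/
def IsClutter {X : Type} (E : Set (Finset X)) : Prop :=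
  ∀ e ∈ E, ∀ f ∈ E, e ⊆ f → e = f

/-- `d`-uniformity: all edges have exactly `d` elements. -/
def Uniform {X : Type} (d : ℕ) (E : Set (Finset X)) : Prop := ∀ e ∈ E, e.card = d

/-- A vertex cover meets every edge. -/
def IsCover {X : Type} (E : Set (Finset X)) (W : Finset X) : Prop :=
  ∀ e ∈ E, ∃ x ∈ e, x ∈ W

/-- Minimal vertex covers: no proper subset is a vertex cover. -/
def IsMinCover {X : Type} (E : Set (Finset X)) (W : Finset X) : Prop :=
  IsCover E W ∧ ∀ W' : Finset X, W' ⊂ W → ¬ IsCover E W'

/-- A `d`-uniform clutter on the finite set `X` is very well-covered if every minimal vertex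
cover has exactly `|X| / d` elements. -/
def VeryWellCovered {X : Type} [Fintype X] (d : ℕ) (E : Set (Finset X)) : Prop :=
  IsClutter E ∧ Uniform d E ∧ ∀ W : Finset X, IsMinCover E W → d * W.card = Fintype.card X

/-- The clutter of `s`-jets of `E`, on the vertex set `X × {0, …, s}`: its edges are the sets
`{(x, i_x) : x ∈ e}` with `e ∈ E` and `∑ i_x ≤ s`. -/
def jets {X : Type} [DecidableEq X] (s : ℕ) (E : Set (Finset X)) :
    Set (Finset (X × Fin (s + 1))) :=
  {f | ∃ e ∈ E, ∃ i : X → Fin (s + 1), (∑ x ∈ e, (i x : ℕ)) ≤ s ∧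
    f = e.image (fun x => (x, i x))}

/-- the vertex `x_i` is `(i, false)`, the vertex `y_i` is `(i, true)` -/
abbrev V (d : ℕ) : Type := Fin d × Bool

/-- the edge `{x_0, …, x_{d-1}}` -/
def base (d : ℕ) : Finset (V d) := Finset.univ.image (fun i => (i, false))

/-- the edge in which `x_k` is replaced by `y_k` -/
def edge (d : ℕ) (k : Fin d) : Finset (V d) :=
  Finset.univ.image (fun i => (i, decide (i = k)))

/-- the clutter -/
def E (d : ℕ) : Set (Finset (V d)) := {e | e = base d ∨ ∃ k, e = edge d k}

lemma mem_base {d : ℕ} {p : V d} : p ∈ base d ↔ p.2 = false := by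
  unfold base
  rw [Finset.mem_image]
  constructor
  · rintro ⟨i, -, rfl⟩; rfl
  · intro h
    exact ⟨p.1, Finset.mem_univ _, by rw [← h]⟩

lemma mem_edge {d : ℕ} {k : Fin d} {p : V d} : p ∈ edge d k ↔ p.2 = decide (p.1 = k) := by
  unfold edge
  rw [Finset.mem_image]
  constructor
  · rintro ⟨i, -, rfl⟩; rfl
  · intro h
    exact ⟨p.1, Finset.mem_univ _, by rw [← h]⟩

lemma card_base (d : ℕ) : (base d).card = d := by
  unfold base
  rw [Finset.card_image_of_injective _ (fun a b h => (Prod.ext_iff.mp h).1)]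
  simp

lemma card_edge (d : ℕ) (k : Fin d) : (edge d k).card = d := by
  unfold edge
  rw [Finset.card_image_of_injective _ (fun a b h => (Prod.ext_iff.mp h).1)]
  simp

lemma uniform_E (d : ℕ) : Uniform d (E d) := by
  rintro e (rfl | ⟨k, rfl⟩)
  · exact card_base d
  · exact card_edge d k

lemma clutter_E (d : ℕ) : IsClutter (E d) := by
  intro e he f hf hef
  exact Finset.eq_of_subset_of_card_le hef (by rw [uniform_E d e he, uniform_E d f hf])

/-- every vertex cover contains a pair `{x_i, x_j}` or `{x_i, y_i}`, which is a cover -/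
lemma cover_pair {d : ℕ} {W : Finset (V d)} (hW : IsCover (E d) W) :
    ∃ p q : V d, p ≠ q ∧ p ∈ W ∧ q ∈ W ∧ IsCover (E d) {p, q} := by
  classical
  obtain ⟨p, hp, hpW⟩ := hW (base d) (Or.inl rfl)
  obtain ⟨q, hq, hqW⟩ := hW (edge d p.1) (Or.inr ⟨p.1, rfl⟩)
  rw [mem_base] at hp
  rw [mem_edge] at hq
  have hpq : p ≠ q := by
    rintro rfl
    rw [hp] at hq
    simp at hq
  refine ⟨p, q, hpq, hpW, hqW, ?_⟩
  rintro e (rfl | ⟨k, rfl⟩)
  · exact ⟨p, mem_base.mpr hp, by simp⟩
  · by_cases hk : p.1 = k
    · refine ⟨q, mem_edge.mpr ?_, by simp⟩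
      rw [hq, hk]
    · refine ⟨p, mem_edge.mpr ?_, by simp⟩
      rw [hp]
      simp [hk]

lemma wellCovered_E (d : ℕ) : VeryWellCovered d (E d) := by
  classical
  refine ⟨clutter_E d, uniform_E d, ?_⟩
  intro W hW
  obtain ⟨p, q, hpq, hp, hq, hc⟩ := cover_pair hW.1
  have hsub : ({p, q} : Finset (V d)) ⊆ W := by
    intro z hz
    rcases Finset.mem_insert.mp hz with rfl | hz
    · exact hp
    · rw [Finset.mem_singleton.mp hz]; exact hq
  have heq : ({p, q} : Finset (V d)) = W := by
    by_contra hne
    exact hW.2 _ (Finset.ssubset_iff_subset_ne.mpr ⟨hsub, hne⟩) hc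
  rw [← heq, Finset.card_pair hpq]
  simp

/-- the small vertex cover of the jet clutter: all `(x_i, 0)` -/
def W₀ (d s : ℕ) : Finset (V d × Fin (s + 1)) :=
  Finset.univ.image (fun i : Fin d => ((i, false), (0 : Fin (s + 1))))

lemma card_W₀ (d s : ℕ) : (W₀ d s).card = d := by
  unfold W₀
  rw [Finset.card_image_of_injective _ (fun a b h => (Prod.ext_iff.mp (Prod.ext_iff.mp h).1).1)]
  simp

/-- If `s ≤ d - 2`, all `(x_i, 0)` together form a vertex cover of the `s`-jets. -/
lemma cover_W₀ {d s : ℕ} (hs : s + 2 ≤ d) : IsCover (jets s (E d)) (W₀ d s) := by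
  classical
  rintro f ⟨e, he, i, hi, rfl⟩
  by_contra hno
  push Not at hno
  -- all `x`-vertices of `e` have positive index
  have hpos : ∀ x ∈ e, x.2 = false → 1 ≤ (i x : ℕ) := by
    intro x hx hx2
    by_contra h0
    have h1 : i x = 0 := Fin.ext (by
      have : (i x : ℕ) = 0 := by omega
      rw [this]; rfl)
    refine hno (x, i x) (Finset.mem_image_of_mem _ hx) ?_
    unfold W₀
    rw [Finset.mem_image]
    exact ⟨x.1, Finset.mem_univ _, by rw [h1, ← hx2]⟩
  have hcard : d - 1 ≤ (e.filter (fun x => x.2 = false)).card := by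
    rcases he with rfl | ⟨k, rfl⟩
    · have : (base d).filter (fun x => x.2 = false) = base d :=
        Finset.filter_true_of_mem (fun x hx => mem_base.mp hx)
      rw [this, card_base]
      omega
    · have hsub : (edge d k).erase (k, true) ⊆ (edge d k).filter (fun x => x.2 = false) := by
        intro x hx
        obtain ⟨h1, h2⟩ := Finset.mem_erase.mp hx
        refine Finset.mem_filter.mpr ⟨h2, ?_⟩
        rw [mem_edge] at h2
        by_contra h3
        rw [Bool.not_eq_false] at h3
        rw [h3] at h2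
        have hk : x.1 = k := of_decide_eq_true h2.symm
        exact h1 (Prod.ext hk h3)
      refine le_trans ?_ (Finset.card_le_card hsub)
      have := Finset.pred_card_le_card_erase (s := edge d k) (a := ((k, true) : V d))
      rw [card_edge] at this
      exact this
  have hsum : (e.filter (fun x => x.2 = false)).card ≤ ∑ x ∈ e, (i x : ℕ) := by
    calc (e.filter (fun x => x.2 = false)).card
        = ∑ _x ∈ e.filter (fun x => x.2 = false), 1 := by simp
      _ ≤ ∑ x ∈ e.filter (fun x => x.2 = false), (i x : ℕ) :=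
          Finset.sum_le_sum fun x hx => hpos x (Finset.mem_filter.mp hx).1
            (Finset.mem_filter.mp hx).2
      _ ≤ ∑ x ∈ e, (i x : ℕ) :=
          Finset.sum_le_sum_of_subset (Finset.filter_subset _ _)
  omega

/-- every vertex cover contains a minimal one -/
lemma exists_min {X : Type} {F : Set (Finset X)} {W : Finset X} (h : IsCover F W) :
    ∃ W', W' ⊆ W ∧ IsMinCover F W' := by
  classical
  induction W using Finset.strongInduction with
  | H W ih =>
    by_cases hm : ∀ W' : Finset X, W' ⊂ W → ¬ IsCover F W'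
    · exact ⟨W, Finset.Subset.refl _, h, hm⟩
    · push Not at hm
      obtain ⟨W', h1, h2⟩ := hm
      obtain ⟨W'', h3, h4⟩ := ih W' h1 h2
      exact ⟨W'', h3.trans h1.1, h4⟩

/-- **Main result.**  For all `d, s` with `s + 2 ≤ d ≤ 2 s + 1` (for instance `d ≥ 3` and
`s = d - 2`) the clutter `E d` is very well-covered and `d`-uniform, but its clutter of
`s`-jets has a minimal vertex cover with fewer than `(s+1)|X|/d` elements; in particular the
statement of Q1 is false (already for `d = 3`, `s = 1`). -/
theorem result :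
    (∀ d s : ℕ, s + 2 ≤ d → d ≤ 2 * s + 1 →
      VeryWellCovered d (E d) ∧
      ∃ W : Finset (V d × Fin (s + 1)), IsMinCover (jets s (E d)) W ∧
        d * W.card < (s + 1) * Fintype.card (V d)) ∧
    ¬ (∀ (X : Type) [Fintype X] [DecidableEq X] (d : ℕ) (F : Set (Finset X)),
        VeryWellCovered d F → ∀ s : ℕ, ∀ W : Finset (X × Fin (s + 1)),
          IsMinCover (jets s F) W → d * W.card = (s + 1) * Fintype.card X) := by
  have main : ∀ d s : ℕ, s + 2 ≤ d → d ≤ 2 * s + 1 →
      VeryWellCovered d (E d) ∧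
      ∃ W : Finset (V d × Fin (s + 1)), IsMinCover (jets s (E d)) W ∧
        d * W.card < (s + 1) * Fintype.card (V d) := by
    intro d s hd hd2
    refine ⟨wellCovered_E d, ?_⟩
    obtain ⟨W, hW, hmin⟩ := exists_min (cover_W₀ hd)
    refine ⟨W, hmin, ?_⟩
    have hc : W.card ≤ d := (Finset.card_le_card hW).trans (card_W₀ d s).le
    have hV : Fintype.card (V d) = d * 2 := by simp
    rw [hV]
    calc d * W.card ≤ d * d := Nat.mul_le_mul_left _ hc
      _ < d * (2 * (s + 1)) := Nat.mul_lt_mul_of_pos_left (by omega) (by omega)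
      _ = (s + 1) * (d * 2) := by ring
  refine ⟨main, ?_⟩
  intro h
  obtain ⟨h1, W, h2, h3⟩ := main 3 1 le_rfl le_rfl
  have := h (V 3) 3 (E 3) h1 1 W h2
  omega

end Pool.Agent.Results.MP_4ee39a_co.JetsFail
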